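import Pool.Agent.H317.GR.StmB

/-!
# Project GR (helper317, MP_a2a22c_al), task B2: characters determine absolutely irreducible
representations
-/

set_option autoImplicit false

namespace Pool.Agent.H355.GR

open Matrix Module Pool.Agent.H317.GR

variable {K : Type} [Field K] {G : Type} [Group G] {n : ℕ}

/-- the representation of the group algebra -/
noncomputable def alg (ρ : G →* GL (Fin n) K) :
    MonoidAlgebra K G →ₐ[K] Matrix (Fin n) (Fin n) K :=
  MonoidAlgebra.lift K (Matrix (Fin n) (Fin n) K) G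
    ((Units.coeHom (Matrix (Fin n) (Fin n) K)).comp ρ)

theorem alg_of (ρ : G →* GL (Fin n) K) (g : G) : alg ρ (MonoidAlgebra.of K G g) = (ρ g).val := by
  unfold alg
  rw [MonoidAlgebra.lift_of]
  rfl

/-- linear functionals are given by the trace form -/
theorem functional (f : Matrix (Fin n) (Fin n) K →ₗ[K] K) (Y : Matrix (Fin n) (Fin n) K) :
    f Y = ((Matrix.of fun j i => f (Matrix.single i j 1)) * Y).trace := by
  conv_lhs => rw [Matrix.matrix_eq_sum_single Y]
  rw [map_sum]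
  simp only [map_sum, Matrix.trace, Matrix.diag_apply, Matrix.mul_apply, Matrix.of_apply]
  rw [Finset.sum_comm]
  refine Finset.sum_congr rfl fun j _ => Finset.sum_congr rfl fun i _ => ?_
  have h : Matrix.single i j (Y i j) = Y i j • Matrix.single i j (1 : K) := by
    rw [Matrix.smul_single, smul_eq_mul, mul_one]
  rw [h, map_smul, smul_eq_mul, mul_comm]

theorem alg_surj {ρ : G →* GL (Fin n) K} (hρ : AI ρ) : Function.Surjective (alg ρ) := by
  rw [← AlgHom.coe_toLinearMap, ← LinearMap.range_eq_top]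
  by_contra h
  obtain ⟨f, hf0, hf⟩ := Submodule.exists_le_ker_of_lt_top _ (lt_top_iff_ne_top.2 h)
  apply hf0
  have hX := hρ (Matrix.of fun j i => f (Matrix.single i j 1)) (fun g => by
    rw [← functional]
    exact hf ⟨MonoidAlgebra.of K G g, alg_of ρ g⟩)
  ext Y
  rw [functional f Y, hX, Matrix.zero_mul, Matrix.trace_zero]
  rfl

theorem trace_eq {ρ σ : G →* GL (Fin n) K} (ht : ∀ g, (ρ g).val.trace = (σ g).val.trace)
    (a : MonoidAlgebra K G) : (alg ρ a).trace = (alg σ a).trace := by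
  induction a using MonoidAlgebra.induction_on with
  | of g => rw [alg_of, alg_of, ht]
  | add a b ha hb => rw [map_add, map_add, Matrix.trace_add, Matrix.trace_add, ha, hb]
  | smul c a ha => rw [map_smul, map_smul, Matrix.trace_smul, Matrix.trace_smul, ha]

theorem ker_le {ρ σ : G →* GL (Fin n) K} (hρ : AI ρ)
    (ht : ∀ g, (ρ g).val.trace = (σ g).val.trace) (a : MonoidAlgebra K G) (ha : alg σ a = 0) :
    alg ρ a = 0 := by
  apply hρ
  intro h
  rw [← alg_of, ← map_mul, trace_eq ht, map_mul, ha, Matrix.zero_mul, Matrix.trace_zero]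

/-- the isomorphism -/
theorem exists_theta {ρ σ : G →* GL (Fin n) K} (hρ : AI ρ)
    (ht : ∀ g, (ρ g).val.trace = (σ g).val.trace) :
    ∃ Θ : Matrix (Fin n) (Fin n) K ≃ₗ[K] Matrix (Fin n) (Fin n) K,
      ∀ a, Θ (alg ρ a) = alg σ a := by
  have hk : LinearMap.ker (alg σ).toLinearMap ≤ LinearMap.ker (alg ρ).toLinearMap := by
    intro a ha
    exact ker_le hρ ht a ha
  let T₀ : LinearMap.range (alg σ).toLinearMap →ₗ[K] Matrix (Fin n) (Fin n) K :=
    ((LinearMap.ker (alg σ).toLinearMap).liftQ (alg ρ).toLinearMap hk).comp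
      (alg σ).toLinearMap.quotKerEquivRange.symm.toLinearMap
  obtain ⟨T, hT⟩ := LinearMap.exists_extend T₀
  have hT' : ∀ a, T (alg σ a) = alg ρ a := by
    intro a
    have h1 := LinearMap.congr_fun hT ⟨(alg σ).toLinearMap a, LinearMap.mem_range_self _ a⟩
    have h2 : (alg σ).toLinearMap.quotKerEquivRange.symm
        ⟨(alg σ).toLinearMap a, LinearMap.mem_range_self _ a⟩ = Submodule.Quotient.mk a :=
      (alg σ).toLinearMap.quotKerEquivRange.symm_apply_eq.2 rfl
    have h3 : T₀ ⟨(alg σ).toLinearMap a, LinearMap.mem_range_self _ a⟩ = alg ρ a := by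
      show (LinearMap.ker (alg σ).toLinearMap).liftQ (alg ρ).toLinearMap hk
        ((alg σ).toLinearMap.quotKerEquivRange.symm
          ⟨(alg σ).toLinearMap a, LinearMap.mem_range_self _ a⟩) = _
      rw [h2]
      rfl
    rw [h3] at h1
    exact h1
  have hsurj : Function.Surjective T := by
    intro Y
    obtain ⟨a, ha⟩ := alg_surj hρ Y
    exact ⟨alg σ a, by rw [hT', ha]⟩
  have hinj : Function.Injective T := LinearMap.injective_iff_surjective.2 hsurj
  refine ⟨(LinearEquiv.ofBijective T ⟨hinj, hsurj⟩).symm, fun a => ?_⟩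
  rw [LinearEquiv.symm_apply_eq]
  exact (hT' a).symm

theorem cnj : S_CNJ := by
  intro K _ G _ n ρ σ hρ ht
  obtain ⟨Θ, hΘ⟩ := exists_theta hρ ht
  have hmul : ∀ X Y, Θ (X * Y) = Θ X * Θ Y := by
    intro X Y
    obtain ⟨a, rfl⟩ := alg_surj hρ X
    obtain ⟨b, rfl⟩ := alg_surj hρ Y
    rw [← map_mul, hΘ, hΘ, hΘ, map_mul]
  have hg : ∀ g, Θ (ρ g).val = (σ g).val := by
    intro g
    rw [← alg_of, hΘ, alg_of]
  rcases Nat.eq_zero_or_pos n with rfl | hn
  · refine ⟨1, fun g => ?_⟩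
    apply Units.ext
    exact Subsingleton.elim _ _
  obtain ⟨w, hw⟩ : ∃ w : Fin n → K, Θ (Matrix.single ⟨0, hn⟩ ⟨0, hn⟩ 1) *ᵥ w ≠ 0 := by
    by_contra hc
    push Not at hc
    have h1 : Θ (Matrix.single ⟨0, hn⟩ ⟨0, hn⟩ 1) = 0 := by
      ext i j
      have h2 := congrFun (hc (Pi.single j 1)) i
      rw [Matrix.mulVec_single_one] at h2
      exact h2
    have h3 : (Matrix.single (⟨0, hn⟩ : Fin n) (⟨0, hn⟩ : Fin n) (1 : K)) = 0 := by
      rwa [LinearEquiv.map_eq_zero_iff] at h1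
    have h4 := congrFun (congrFun h3 ⟨0, hn⟩) ⟨0, hn⟩
    rw [Matrix.single_apply_same, Matrix.zero_apply] at h4
    exact one_ne_zero h4
  obtain ⟨P, hP⟩ : ∃ P : Matrix (Fin n) (Fin n) K,
      P = Matrix.of fun k i => (Θ (Matrix.single i ⟨0, hn⟩ 1) *ᵥ w) k := ⟨_, rfl⟩
  have hcomm : ∀ X, P * X = Θ X * P := by
    intro X
    ext k i
    have h1 : X * Matrix.single i (⟨0, hn⟩ : Fin n) (1 : K) =
        ∑ j, X j i • Matrix.single j (⟨0, hn⟩ : Fin n) (1 : K) := by
      ext a b
      rw [Matrix.sum_apply, Matrix.mul_apply]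
      simp only [Matrix.smul_apply, Matrix.single_apply, smul_eq_mul, mul_ite, mul_one, mul_zero]
      by_cases hb : (⟨0, hn⟩ : Fin n) = b
      · simp [hb]
      · simp [hb]
    have h2 : (P * X) k i = (Θ (X * Matrix.single i (⟨0, hn⟩ : Fin n) (1 : K)) *ᵥ w) k := by
      rw [h1, map_sum, Matrix.sum_mulVec, Finset.sum_apply, Matrix.mul_apply]
      refine Finset.sum_congr rfl fun j _ => ?_
      rw [map_smul, Matrix.smul_mulVec, Pi.smul_apply, smul_eq_mul, hP, Matrix.of_apply, mul_comm]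
    rw [h2, hmul, ← Matrix.mulVec_mulVec, Matrix.mul_apply]
    show ∑ j, Θ X k j * _ = _
    refine Finset.sum_congr rfl fun j _ => ?_
    rw [hP, Matrix.of_apply]
  have hdet : P.det ≠ 0 := by
    intro h0
    obtain ⟨v, hv0, hv⟩ := Matrix.exists_mulVec_eq_zero_iff.2 h0
    obtain ⟨i, hi⟩ := Function.ne_iff.1 hv0
    rw [Pi.zero_apply] at hi
    apply hw
    have h1 : P *ᵥ ((Matrix.single (⟨0, hn⟩ : Fin n) i (v i)⁻¹) *ᵥ v) = 0 := by
      rw [Matrix.mulVec_mulVec, hcomm, ← Matrix.mulVec_mulVec, hv, Matrix.mulVec_zero]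
    have h2 : (Matrix.single (⟨0, hn⟩ : Fin n) i (v i)⁻¹) *ᵥ v = Pi.single ⟨0, hn⟩ 1 := by
      ext k
      rw [Matrix.mulVec, dotProduct]
      simp only [Matrix.single_apply]
      by_cases hk : (⟨0, hn⟩ : Fin n) = k
      · subst hk
        simp [hi]
      · simp [hk, Ne.symm hk]
    rw [h2, Matrix.mulVec_single_one] at h1
    ext k
    have h3 := congrFun h1 k
    rw [hP] at h3
    exact h3
  refine ⟨GeneralLinearGroup.mkOfDetNeZero P hdet, fun g => ?_⟩
  apply Units.ext
  show (σ g).val * P = P * (ρ g).val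
  rw [hcomm, hg]

end Pool.Agent.H355.GR
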